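import Pool.Agent.H369.TH.Stm

/-!
# TH12a PNODE (helper287, for helper369): change of coordinates in power series

`W = A[[u]][[ε]]` (outer variable `ε`, inner variable `u`), `𝒫 = ∑ j, 𝒬 j ζ^j` a polynomial over `W`.
The hypothesis says that the `b'`-th Taylor coefficient of `𝒫` at the point `h(0) + ε y` is divisible
by `u ^ (γ - b')`.  As `h - h(0)` is divisible by `u`, the same holds at the point `h + ε y`, and this
Taylor coefficient is computed with `taylor_taylor`.
-/

set_option autoImplicit false

namespace Pool.Agent.H287.TH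

open PowerSeries Pool.Agent.H369.TH

/-- the Taylor coefficients of a polynomial given by its coefficients -/
theorem coeff_taylor_mon {R : Type} [CommRing R] (N : ℕ) (q : ℕ → R) (r : R) (b : ℕ) :
    (Polynomial.taylor r (∑ j ∈ Finset.range N, Polynomial.monomial j (q j))).coeff b =
      ∑ j ∈ Finset.range N, (j.choose b : R) * r ^ (j - b) * q j := by
  rw [map_sum, Polynomial.finsetSum_coeff]
  refine Finset.sum_congr rfl fun j _ => ?_
  rw [Polynomial.taylor_monomial, Polynomial.coeff_C_mul, Polynomial.coeff_X_add_C_pow]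
  ring

/-- the Taylor coefficients of a polynomial of small degree -/
theorem coeff_taylor_deg {R : Type} [CommRing R] (N : ℕ) (p : Polynomial R) (hp : p.natDegree < N)
    (r : R) (b : ℕ) : (Polynomial.taylor r p).coeff b =
      ∑ j ∈ Finset.range N, (j.choose b : R) * r ^ (j - b) * p.coeff j := by
  conv_lhs => rw [Polynomial.as_sum_range' p N hp]
  exact coeff_taylor_mon N (fun j => p.coeff j) r b

/-- divisibility by a power of the inner variable -/
theorem dvd_inner {A : Type} [CommRing A] (n : ℕ) (w : PowerSeries (PowerSeries A)) :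
    (PowerSeries.C (PowerSeries.X : PowerSeries A)) ^ n ∣ w ↔
      ∀ b : ℕ, ∀ a < n, PowerSeries.coeff a (PowerSeries.coeff b w) = 0 := by
  rw [← map_pow]
  constructor
  · rintro ⟨v, rfl⟩ b a ha
    rw [PowerSeries.coeff_C_mul, PowerSeries.coeff_X_pow_mul', if_neg (not_le.2 ha)]
  · intro h
    have h1 : ∀ b : ℕ, (PowerSeries.X : PowerSeries A) ^ n ∣ PowerSeries.coeff b w := fun b =>
      PowerSeries.X_pow_dvd_iff.2 (h b)
    choose v hv using h1
    refine ⟨PowerSeries.mk v, ?_⟩
    ext1 b
    rw [PowerSeries.coeff_C_mul, PowerSeries.coeff_mk, hv b]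

/-- coefficients of a product with a series without `u` -/
theorem coeff_mapC_mul {A : Type} [CommRing A] (f : PowerSeries A) (q : PowerSeries (PowerSeries A))
    (a b : ℕ) : PowerSeries.coeff a (PowerSeries.coeff b
      (PowerSeries.map (PowerSeries.C : A →+* PowerSeries A) f * q)) =
      PowerSeries.coeff b (f * PowerSeries.mk fun b => PowerSeries.coeff a (PowerSeries.coeff b q)) := by
  rw [PowerSeries.coeff_mul, PowerSeries.coeff_mul, map_sum]
  refine Finset.sum_congr rfl fun p _ => ?_
  rw [PowerSeries.coeff_map, PowerSeries.coeff_C_mul, PowerSeries.coeff_mk]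

theorem pnode : S_pnode := by
  intro A _ h y J γ Q hyp s a' b' hab
  obtain ⟨Qs, hQs⟩ : ∃ Qs : ℕ → PowerSeries (PowerSeries A),
      Qs = fun j => PowerSeries.mk fun b => Q j b := ⟨_, rfl⟩
  have hQc : ∀ j b, PowerSeries.coeff b (Qs j) = Q j b := by
    intro j b
    rw [hQs]
    exact PowerSeries.coeff_mk _ _
  obtain ⟨P, hP⟩ : ∃ P : Polynomial (PowerSeries (PowerSeries A)),
      P = ∑ j ∈ Finset.range (J + 1), Polynomial.monomial j (Qs j) := ⟨_, rfl⟩
  have hPd : P.natDegree ≤ J := by
    rw [hP]
    refine Polynomial.natDegree_sum_le_of_forall_le _ _ fun j hj => ?_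
    exact (Polynomial.natDegree_monomial_le _).trans (Nat.lt_succ_iff.1 (Finset.mem_range.1 hj))
  obtain ⟨z00, hz00⟩ : ∃ z : PowerSeries A,
      z = PowerSeries.C (PowerSeries.coeff 0 h) + PowerSeries.X * PowerSeries.C y := ⟨_, rfl⟩
  obtain ⟨z0, hz0⟩ : ∃ z : PowerSeries (PowerSeries A),
      z = PowerSeries.map (PowerSeries.C : A →+* PowerSeries A) z00 := ⟨_, rfl⟩
  obtain ⟨δ, hδ⟩ : ∃ δ : PowerSeries (PowerSeries A),
      δ = PowerSeries.C (h - PowerSeries.C (PowerSeries.coeff 0 h)) := ⟨_, rfl⟩
  obtain ⟨ey, hey⟩ : ∃ e : PowerSeries (PowerSeries A),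
      e = PowerSeries.X * PowerSeries.C (PowerSeries.C y) := ⟨_, rfl⟩
  have hz : δ + z0 = ey + PowerSeries.C h := by
    rw [hδ, hz0, hz00, hey, map_add, map_mul, PowerSeries.map_C, PowerSeries.map_X,
      PowerSeries.map_C, map_sub]
    ring
  have hδu : (PowerSeries.C (PowerSeries.X : PowerSeries A)) ∣ δ := by
    rw [hδ]
    apply map_dvd
    rw [PowerSeries.X_dvd_iff, map_sub, PowerSeries.constantCoeff_C]
    simp
  -- the Taylor coefficients at `z0`
  have hT0 : ∀ i : ℕ, (PowerSeries.C (PowerSeries.X : PowerSeries A)) ^ (γ - i) ∣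
      (Polynomial.taylor z0 P).coeff i := by
    intro i
    rw [dvd_inner]
    intro b a ha
    have h1 := hyp a i (by omega)
    rw [← hz00] at h1
    have h2 : PowerSeries.coeff a (PowerSeries.coeff b ((Polynomial.taylor z0 P).coeff i)) =
        PowerSeries.coeff b (∑ j ∈ Finset.range (J + 1), (j.choose i : PowerSeries A) *
          z00 ^ (j - i) * PowerSeries.mk (fun b => PowerSeries.coeff a (Q j b))) := by
      rw [hP, coeff_taylor_mon, map_sum, map_sum, map_sum]
      refine Finset.sum_congr rfl fun j _ => ?_
      have h3 : ((j.choose i : ℕ) : PowerSeries (PowerSeries A)) * z0 ^ (j - i) * Qs j =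
          PowerSeries.map (PowerSeries.C : A →+* PowerSeries A)
            ((j.choose i : PowerSeries A) * z00 ^ (j - i)) * Qs j := by
        rw [map_mul, map_pow, map_natCast, ← hz0]
      rw [h3, coeff_mapC_mul]
      simp only [hQc]
    rw [h2, h1, map_zero]
  -- the Taylor coefficients at `h + ε y`
  have hT1 : (PowerSeries.C (PowerSeries.X : PowerSeries A)) ^ (γ - b') ∣
      (Polynomial.taylor (ey + PowerSeries.C h) P).coeff b' := by
    rw [← hz, ← Polynomial.taylor_taylor,
      coeff_taylor_deg (J + 1) _ (by rw [Polynomial.natDegree_taylor]; omega)]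
    refine Finset.dvd_sum fun k _ => ?_
    by_cases hk : k < b'
    · rw [Nat.choose_eq_zero_of_lt hk, Nat.cast_zero, zero_mul, zero_mul]
      exact dvd_zero _
    · have h1 : (PowerSeries.C (PowerSeries.X : PowerSeries A)) ^ ((k - b') + (γ - k)) ∣
          δ ^ (k - b') * (Polynomial.taylor z0 P).coeff k := by
        rw [pow_add]
        exact mul_dvd_mul (pow_dvd_pow_of_dvd hδu _) (hT0 k)
      rw [mul_assoc]
      exact Dvd.dvd.mul_left ((pow_dvd_pow _ (by omega)).trans h1) _
  by_cases hs : s < b'
  · refine Finset.sum_eq_zero fun k hk => ?_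
    have hk' := Finset.mem_range.1 hk
    rw [Nat.choose_eq_zero_of_lt (by omega), Nat.cast_zero, zero_mul, zero_mul]
  · have h1 := (dvd_inner _ _).1 hT1 (s - b') a' (by omega)
    rw [← Polynomial.taylor_taylor,
      coeff_taylor_deg (J + s + 1) _ (by rw [Polynomial.natDegree_taylor]; omega), map_sum,
      map_sum] at h1
    rw [← h1]
    -- terms
    have hterm : ∀ k : ℕ, PowerSeries.coeff a' (PowerSeries.coeff (s - b')
        ((k.choose b' : PowerSeries (PowerSeries A)) * ey ^ (k - b') *
          (Polynomial.taylor (PowerSeries.C h) P).coeff k)) =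
        if k ≤ s then (k.choose b' : A) * y ^ (k - b') * PowerSeries.coeff a'
          (∑ j ∈ Finset.range (J + 1), (j.choose k : PowerSeries A) * h ^ (j - k) * Q j (s - k))
        else 0 := by
      intro k
      by_cases hk : k < b'
      · rw [Nat.choose_eq_zero_of_lt hk, Nat.cast_zero, zero_mul, zero_mul, map_zero, map_zero,
          Nat.cast_zero, zero_mul, zero_mul, ite_self]
      · have h2 : (k.choose b' : PowerSeries (PowerSeries A)) * ey ^ (k - b') *
            (Polynomial.taylor (PowerSeries.C h) P).coeff k = PowerSeries.X ^ (k - b') *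
            (PowerSeries.C (PowerSeries.C ((k.choose b' : A) * y ^ (k - b'))) *
            (Polynomial.taylor (PowerSeries.C h) P).coeff k) := by
          rw [hey, mul_pow, map_mul, map_mul, map_natCast, map_natCast, map_pow, map_pow]
          ring
        rw [h2, PowerSeries.coeff_X_pow_mul']
        by_cases hks : k ≤ s
        · rw [if_pos hks, if_pos (by omega), show s - b' - (k - b') = s - k by omega,
            PowerSeries.coeff_C_mul, PowerSeries.coeff_C_mul, hP, coeff_taylor_mon, map_sum]
          congr 2
          refine Finset.sum_congr rfl fun j _ => ?_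
          have h3 : ((j.choose k : ℕ) : PowerSeries (PowerSeries A)) *
              (PowerSeries.C h) ^ (j - k) * Qs j =
              PowerSeries.C ((j.choose k : PowerSeries A) * h ^ (j - k)) * Qs j := by
            rw [map_mul, map_pow, map_natCast]
          rw [h3, PowerSeries.coeff_C_mul, hQc]
        · rw [if_neg hks, if_neg (by omega), map_zero]
    simp only [hterm]
    rw [← Finset.sum_filter]
    refine Finset.sum_congr ?_ fun k _ => rfl
    ext k
    rw [Finset.mem_filter, Finset.mem_range, Finset.mem_range]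
    omega

end Pool.Agent.H287.TH
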